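import Pool.Agent.Lib.MP_eee7a8_ag.TB.Iface4

/-!
# TAGBR, module GRADU: homogeneous components of elements of `U⁺` (helper75)
-/

set_option autoImplicit false
set_option linter.unusedVariables false

open Matrix

namespace Pool.Agent.Lib.MP_eee7a8_ag.TB.C75

variable {G : Subgroup SLZ} {K : Type} [Field K] [Algebra ℂ K]

theorem one_hom (L : Lam G K) : (1 : K) ∈ L.Hom 0 := Submodule.subset_span Lam.HM.one

/-- the Laurent monomials of a tagged triangulation are homogeneous -/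
theorem mono_hom (gr : GradStatement) (L : Lam G K) (hG : IsSurface G) (Tt : Set TArc)
    (ht : IsTTri G Tt) : ∀ z ∈ L.monomials Tt, ∃ δ, z ∈ L.Hom δ := by
  obtain ⟨-, gmul, glam, glami, gv, gvi, -⟩ := gr G K L hG
  intro z hz
  refine Submonoid.closure_induction (motive := fun z _ => ∃ δ, z ∈ L.Hom δ) ?_ ?_ ?_ hz
  · rintro z ⟨τ, hτ, hz⟩
    have hne := (ht.arc τ hτ).ne
    have h1 : ∀ (s : Bool) (a : Cusp), ∃ δ, (if s then L.v a else 1) ∈ L.Hom δ := by
      intro s a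
      cases s
      · exact ⟨0, one_hom L⟩
      · exact ⟨_, gv a⟩
    have h2 : ∀ (s : Bool) (a : Cusp), ∃ δ, (if s then L.v a else 1)⁻¹ ∈ L.Hom δ := by
      intro s a
      cases s
      · refine ⟨0, ?_⟩
        simpa using one_hom L
      · exact ⟨_, gvi a⟩
    rcases hz with rfl | rfl
    · obtain ⟨δ1, e1⟩ := h1 τ.s τ.a
      obtain ⟨δ2, e2⟩ := h1 τ.t τ.b
      exact ⟨_, gmul _ _ _ _ (gmul _ _ _ _ e1 e2) (glam τ.a τ.b)⟩
    · obtain ⟨δ1, e1⟩ := h2 τ.s τ.a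
      obtain ⟨δ2, e2⟩ := h2 τ.t τ.b
      refine ⟨δ1 + δ2 + -ends G τ.a τ.b, ?_⟩
      unfold Lam.arc
      rw [mul_inv, mul_inv]
      exact gmul _ _ _ _ (gmul _ _ _ _ e1 e2) (glami τ.a τ.b hne)
  · exact ⟨0, one_hom L⟩
  · rintro x y _ _ ⟨δ1, h1⟩ ⟨δ2, h2⟩
    exact ⟨_, gmul _ _ _ _ h1 h2⟩

open Classical in
/-- grouping a nonnegative combination of homogeneous elements by degrees -/
theorem comps (L : Lam G K) (S : Set K) (hS : ∀ z ∈ S, ∃ δ, z ∈ L.Hom δ) (x : K)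
    (hx : x ∈ PosSpan S) : ∃ (s : Finset (Cusp → ℤ)) (y : (Cusp → ℤ) → K),
      (∀ δ, y δ ∈ L.Hom δ ∧ y δ ∈ PosSpan S) ∧ (∀ δ, δ ∉ s → y δ = 0) ∧
      x = ∑ δ ∈ s, y δ := by
  obtain ⟨t, c, ht, hc, rfl⟩ := hx
  have hD : ∀ z : K, ∃ δ, z ∈ S → z ∈ L.Hom δ := by
    intro z
    by_cases h : z ∈ S
    · obtain ⟨δ, hδ⟩ := hS z h
      exact ⟨δ, fun _ => hδ⟩
    · exact ⟨0, fun h' => absurd h' h⟩
  choose D hD using hD
  refine ⟨t.image D, fun δ => ∑ z ∈ t.filter (fun z => D z = δ), algebraMap ℂ K (c z) * z,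
    ?_, ?_, ?_⟩
  · intro δ
    constructor
    · apply Submodule.sum_mem
      intro z hz
      rw [Finset.mem_filter] at hz
      rw [← Algebra.smul_def]
      apply Submodule.smul_mem
      rw [← hz.2]
      exact hD z (ht hz.1)
    · refine ⟨t.filter (fun z => D z = δ), c, ?_, ?_, rfl⟩
      · intro z hz
        rw [Finset.mem_coe, Finset.mem_filter] at hz
        exact ht hz.1
      · intro z hz
        rw [Finset.mem_filter] at hz
        exact hc z hz.1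
  · intro δ hδ
    apply Finset.sum_eq_zero
    intro z hz
    rw [Finset.mem_filter] at hz
    exfalso
    apply hδ
    rw [Finset.mem_image]
    exact ⟨z, hz.1, hz.2⟩
  · rw [Finset.sum_image']
    intro z hz
    rfl

open Classical in
/-- MODULE GRADU -/
theorem gradu (gr : GradStatement) (fa : FareyStatement) (tp : TplainStatement) :
    GraduStatement := by
  intro G K _ _ L hG x hx
  obtain ⟨n, T, hT, -⟩ := fa G hG
  obtain ⟨Tt0, h0, -⟩ := tp G hG n T hT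
  obtain ⟨s0, y0, hy0, hz0, hs0⟩ := comps L _ (mono_hom gr L hG Tt0 h0) x (hx Tt0 h0)
  have hind := (gr G K L hG).1
  have hU : ∀ δ, y0 δ ∈ L.Upos := by
    intro δ Tt ht
    obtain ⟨s, y, hy, hz, hs⟩ := comps L _ (mono_hom gr L hG Tt ht) x (hx Tt ht)
    have hsum : ∑ δ ∈ s0 ∪ s, (y0 δ - y δ) = 0 := by
      rw [Finset.sum_sub_distrib, sub_eq_zero]
      rw [← Finset.sum_subset Finset.subset_union_left (fun δ _ h => hz0 δ h),
        ← Finset.sum_subset Finset.subset_union_right (fun δ _ h => hz δ h), ← hs0, ← hs]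
    have h1 := hind (s0 ∪ s) (fun δ => y0 δ - y δ)
      (fun δ _ => Submodule.sub_mem _ (hy0 δ).1 (hy δ).1) hsum
    by_cases hδ : δ ∈ s0 ∪ s
    · have h2 := sub_eq_zero.1 (h1 δ hδ)
      rw [h2]
      exact (hy δ).2
    · rw [Finset.mem_union, not_or] at hδ
      rw [hz0 δ hδ.1, ← hz δ hδ.2]
      exact (hy δ).2
  refine ⟨s0.filter (fun δ => y0 δ ≠ 0), y0, ?_, ?_⟩
  · intro δ hδ
    rw [Finset.mem_filter] at hδ
    exact ⟨(hy0 δ).1, hU δ, hδ.2⟩
  · rw [Finset.sum_filter_ne_zero]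
    exact hs0

end Pool.Agent.Lib.MP_eee7a8_ag.TB.C75
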