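import Pool.Agent.Lib.MP_eee7a8_ag.TB.Iface4

/-!
# TAGBR, module INDL: different functions of bracelets are linearly independent (helper75)
-/

set_option autoImplicit false
set_option linter.unusedVariables false

open Matrix

namespace Pool.Agent.Lib.MP_eee7a8_ag.TB.C75

variable {G : Subgroup SLZ} {K : Type} [Field K] [Algebra ℂ K]

open Classical in
/-- the degree of a nonzero homogeneous element is unique -/
theorem deg_unique (gr : GradStatement) (L : Lam G K) (hG : IsSurface G) {x : K} (hx : x ≠ 0)
    {δ δ' : Cusp → ℤ} (h : x ∈ L.Hom δ) (h' : x ∈ L.Hom δ') : δ = δ' := by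
  by_contra hne
  have hind := (gr G K L hG).1 {δ, δ'} (fun d => if d = δ then x else -x) ?_ ?_ δ (by simp)
  · simp only [if_true] at hind
    exact hx hind
  · intro d hd
    rw [Finset.mem_insert, Finset.mem_singleton] at hd
    by_cases hdd : d = δ
    · simp only [hdd, if_true]
      exact h
    · rcases hd with hd | hd
      · exact absurd hd hdd
      · simp only [if_neg hdd]
        rw [hd]
        exact Submodule.neg_mem _ h'
  · rw [Finset.sum_pair hne]
    have : ¬ (δ' = δ) := fun e => hne e.symm
    simp [this]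

theorem ev_zero (L : Lam G K) {ι : Type} [Fintype ι] (T : Fam ι) : L.ev T 0 = 0 := by
  unfold Lam.ev
  simp

open Classical in
/-- MODULE INDL -/
theorem indl (gr : GradStatement) (tc : TagchStatement) (tf : TagfStatement) (tu : TaguStatement)
    (bs : BrsysbStatement) (bd : BrdegStatement) (ls : LinsysStatement) (sl : SleqStatement)
    (nz : InzStatement) : IndlStatement := by
  intro G K _ _ L hG n β hne
  rw [Fintype.linearIndependent_iff]
  intro c hc i₀
  have hI0 := (nz G K L hG).1
  -- the relation in the degree of `β i₀`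
  set δ := (β i₀).deg with hδ
  have hrel : ∑ i ∈ Finset.univ.filter (fun i => (β i).deg = δ), c i • L.I (β i) = 0 := by
    have h1 := (gr G K L hG).1 (Finset.univ.image (fun i => (β i).deg))
      (fun d => ∑ i ∈ Finset.univ.filter (fun i => (β i).deg = d), c i • L.I (β i)) ?_ ?_ δ ?_
    · exact h1
    · intro d _
      apply Submodule.sum_mem
      intro i hi
      rw [Finset.mem_filter] at hi
      apply Submodule.smul_mem
      rw [← hi.2]
      exact bd G K L hG (β i)
    · rw [← hc]
      symm
      rw [Finset.sum_image']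
      intro i hi
      rfl
    · exact Finset.mem_image_of_mem _ (Finset.mem_univ i₀)
  -- invariance of the degree
  have hinv : ∀ g ∈ G, ∀ z, δ (g • z) = δ z :=
    (gr G K L hG).2.2.2.2.2.2.2.2 δ _ (bd G K L hG (β i₀)) (hI0 (β i₀))
  set ε : Cusp → Bool := fun z => decide (δ z < 0) with hε
  have hεi : TagInv G ε := by
    intro g hg a
    simp only [hε, hinv g hg a]
  obtain ⟨L', hL'⟩ := tc G K L hG ε hεi
  have hL : IsTw L' L ε := (tf G K L L' hG ε hεi hL').1
  have hHom := (tf G K L L' hG ε hεi hL').2.2.2.2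
  obtain ⟨-, -, -, hbr⟩ := tu G K L' L hG ε hεi hL
  -- systems
  have hsys : ∀ i, (β i).deg = δ → ∃ γ : Sys G, L'.IS γ = L.I (β i) := by
    intro i hi
    obtain ⟨β', hβ'⟩ := hbr (β i)
    have h1 : L.I (β i) ∈ L'.Hom (fun z => if ε z then -δ z else δ z) := by
      apply hHom
      rw [← hi]
      exact bd G K L hG (β i)
    have h2 : L.I (β i) ∈ L'.Hom β'.deg := by
      rw [hβ']
      exact bd G K L' hG β'
    have h3 : β'.deg = fun z => if ε z then -δ z else δ z :=
      deg_unique gr L' hG (hI0 (β i)) h2 h1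
    obtain ⟨γ, -, hγ⟩ := bs G hG β' (by
      intro z
      rw [h3]
      simp only [hε, decide_eq_true_eq]
      split_ifs with h4
      · omega
      · omega)
    exact ⟨γ, by rw [hβ', hγ]⟩
  -- reindex
  set S := {i : Fin n // (β i).deg = δ} with hS
  have hSγ : ∀ s : S, ∃ γ : Sys G, L'.IS γ = L.I (β s.1) := fun s => hsys s.1 s.2
  choose γ hγ using hSγ
  let e : S ≃ Fin (Fintype.card S) := Fintype.equivFin S
  have hns : ∀ i j, i ≠ j → ¬ Slide G none (γ (e.symm i)) (γ (e.symm j)) := by
    intro i j hij hsl
    have h1 := (sl G K L' hG).1 _ _ hsl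
    rw [hγ, hγ] at h1
    have h2 : (e.symm i).1 ≠ (e.symm j).1 := by
      intro h3
      apply hij
      have := Subtype.ext h3
      exact e.symm.injective this
    exact hne _ _ h2 h1
  obtain ⟨m, T, E, hT, hE⟩ := ls G K L' hG (Fintype.card S) (fun i => γ (e.symm i)) hns
    (fun i => c (e.symm i).1) (e ⟨i₀, rfl⟩)
  have h0 := hE 0 ?_
  · simpa using h0.symm
  · rw [ev_zero]
    have h1 : ∑ i : Fin (Fintype.card S), algebraMap ℂ K (c (e.symm i).1) *
        L'.IS (γ (e.symm i)) = ∑ s : S, c s.1 • L.I (β s.1) := by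
      rw [← e.sum_comp]
      apply Finset.sum_congr rfl
      intro s _
      rw [Equiv.symm_apply_apply, hγ, Algebra.smul_def]
    rw [h1, ← hrel]
    exact (Finset.sum_subtype (Finset.univ.filter (fun i => (β i).deg = δ)) (by simp)
      (fun i => c i • L.I (β i)))

end Pool.Agent.Lib.MP_eee7a8_ag.TB.C75
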