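import Pool.Agent.Lib.MP_eee7a8_ag.TB.Iface4

/-!
# TAGBR, module SPANP: elements of `U⁺` are nonnegative combinations of functions of bracelets
(helper75)
-/

set_option autoImplicit false
set_option linter.unusedVariables false

open Matrix

namespace Pool.Agent.Lib.MP_eee7a8_ag.TB.C75

variable {G : Subgroup SLZ} {K : Type} [Field K] [Algebra ℂ K]

theorem ge_none (G : Subgroup SLZ) : Ge G none = fun _ _ => False := by
  funext a b
  apply propext
  constructor
  · rintro ⟨p, hp, -⟩
    exact absurd hp (by simp)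
  · intro h
    exact h.elim

open Classical in
/-- MODULE SPANP -/
theorem spanp (gu : GraduStatement) (tc : TagchStatement) (tf : TagfStatement)
    (tu : TaguStatement) (t51 : Thm51Statement) (sk : SkStatement) (ls : LinsysStatement)
    (sl : SleqStatement) (ba : BrsysaStatement) (pc : PoscStatement) (gr : GradStatement)
    (pr : PosrStatement) : SpanpStatement := by
  intro G K _ _ L hG x hx
  obtain ⟨s, y, hy, rfl⟩ := gu G K L hG x hx
  obtain ⟨hsub, hadd, hmul, -, hzero, -⟩ := pr K (Set.range L.I)
  have key : ∀ (δ : Cusp → ℤ) (z : K), z ∈ L.Hom δ → z ∈ L.Upos → z ≠ 0 →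
      z ∈ PosSpan (Set.range L.I) := by
    intro δ z hzH hzU hz0
    have hinv : ∀ g ∈ G, ∀ w, δ (g • w) = δ w :=
      (gr G K L hG).2.2.2.2.2.2.2.2 δ _ hzH hz0
    set ε : Cusp → Bool := fun w => decide (δ w < 0) with hε
    have hεi : TagInv G ε := by
      intro g hg a
      simp only [hε, hinv g hg a]
    obtain ⟨L', hL'⟩ := tc G K L hG ε hεi
    have hHom := (tf G K L L' hG ε hεi hL').2.2.2.2 δ z hzH
    obtain ⟨-, hUU, hUp, hbr⟩ := tu G K L L' hG ε hεi hL'
    obtain ⟨pc1, pc2, pc3⟩ := pc G K L' hG
    have hzU' : z ∈ L'.Upos := by rw [hUp]; exact hzU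
    have hUP : L'.UP z := pc1 z (pc2 hzU')
    have hRA : z ∈ L'.RA := by
      apply t51 G K L' hG z _ hUP hHom
      intro w
      simp only [hε, decide_eq_true_eq]
      split_ifs with h4
      · omega
      · omega
    have hadm : Adm G none := by
      intro p hp
      exact absurd hp (by simp)
    have hRR : z ∈ L'.RR (Ge G none) := by
      rw [ge_none]; exact hRA
    have hspan := sk G K L' hG none hadm z _ hRR hHom
    -- representatives
    obtain ⟨hIS, hrefl, hsymm, htrans⟩ := sl G K L' hG
    let st : Setoid (Sys G) :=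
      ⟨Slide G none, ⟨hrefl none, fun h => hsymm none _ _ h, fun h h' => htrans none _ _ _ h h'⟩⟩
    have hspan2 : z ∈ Submodule.span ℂ (Set.range fun q : Quotient st => L'.IS q.out) := by
      refine Submodule.span_mono ?_ hspan
      rintro w ⟨β, -, -, rfl⟩
      refine ⟨Quotient.mk st β, ?_⟩
      exact hIS _ _ (Quotient.mk_out (s := st) β)
    rw [Finsupp.mem_span_range_iff_exists_finsupp] at hspan2
    obtain ⟨c, hc⟩ := hspan2
    let e : Fin c.support.card ≃ c.support := c.support.equivFin.symm
    have hns : ∀ i j, i ≠ j → ¬ Slide G none (e i).1.out (e j).1.out := by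
      intro i j hij hs
      apply hij
      apply e.injective
      apply Subtype.ext
      rw [← Quotient.out_eq (s := st) (e i).1, ← Quotient.out_eq (s := st) (e j).1]
      exact Quotient.sound (s := st) hs
    have hcoef : ∀ q ∈ c.support, ∃ r : ℝ, 0 ≤ r ∧ c q = (r : ℂ) := by
      intro q hq
      obtain ⟨m, T, E, hT, hE⟩ := ls G K L' hG c.support.card (fun i => (e i).1.out) hns
        (fun i => c (e i).1) (e.symm ⟨q, hq⟩)
      obtain ⟨p, hp⟩ := hUP m T hT
      have h1 := hE p ?_
      · obtain ⟨r, hr, hr2⟩ := pc3 z hzU' m T hT p hp E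
        refine ⟨r, hr, ?_⟩
        rw [← hr2, h1]
        simp
      · rw [hp, ← hc, Finsupp.sum]
        have h2 : ∑ i : Fin c.support.card, algebraMap ℂ K (c (e i).1) * L'.IS (e i).1.out =
            ∑ q : c.support, c q.1 • L'.IS q.1.out := by
          rw [← e.sum_comp]
          apply Finset.sum_congr rfl
          intro i _
          rw [Algebra.smul_def]
        rw [h2]
        exact (Finset.sum_coe_sort c.support (fun q => c q • L'.IS q.out)).symm
    rw [← hc, Finsupp.sum]
    apply Finset.sum_induction _ (fun w => w ∈ PosSpan (Set.range L.I))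
      (fun a b ha hb => hadd a ha b hb) hzero
    intro q hq
    obtain ⟨r, hr, hr2⟩ := hcoef q hq
    obtain ⟨b, hb⟩ := ba G hG q.out
    obtain ⟨b', hb'⟩ := hbr b
    rw [Algebra.smul_def, hr2, ← hb K L', hb']
    exact hmul _ (hsub ⟨b', rfl⟩) r hr
  exact Finset.sum_induction _ (fun w => w ∈ PosSpan (Set.range L.I))
      (fun a b ha hb => hadd a ha b hb) hzero
    (fun δ hδ => key δ (y δ) (hy δ hδ).1 (hy δ hδ).2.1 (hy δ hδ).2.2)

end Pool.Agent.Lib.MP_eee7a8_ag.TB.C75
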